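import Mathlib

/-!
An `e`-separable product of discrete spaces need not be `E`-separable: for every infinite discrete
space `N` the power of `N` with exponent `ℕ × 𝒫(N)` is `e`-separable but not `E`-separable.
-/

set_option autoImplicit false

open Set Filter Topology Cardinal

namespace Pool.Agent.Results.MP_a67be6_gt.NotESeparable

universe u

/-- Closed discrete subsets. -/
def ClosedDiscrete {X : Type u} [TopologicalSpace X] (A : Set X) : Prop :=
  IsClosed A ∧ ∀ a ∈ A, ∃ O : Set X, IsOpen O ∧ O ∩ A = {a}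

/-- `e`-separable spaces: there is a dense subset which is the union of countably many closed
discrete subsets. -/
def SmallESeparable (X : Type u) [TopologicalSpace X] : Prop :=
  ∃ E : ℕ → Set X, (∀ n, ClosedDiscrete (E n)) ∧ Dense (⋃ n, E n)

/-- `E`-separable spaces: for every sequence `(D n)` of dense subsets there are closed discrete
subsets `E n` of the space with `E n ⊆ D n`, the union of which is dense. -/
def BigESeparable (X : Type u) [TopologicalSpace X] : Prop :=
  ∀ D : ℕ → Set X, (∀ n, Dense (D n)) →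
    ∃ E : ℕ → Set X, (∀ n, E n ⊆ D n ∧ ClosedDiscrete (E n)) ∧ Dense (⋃ n, E n)

lemma closedDiscrete_of {X : Type u} [TopologicalSpace X] [T1Space X] {A : Set X}
    (h : ∀ z : X, ∃ O : Set X, IsOpen O ∧ z ∈ O ∧ (O ∩ A).Subsingleton) : ClosedDiscrete A := by
  constructor
  · rw [← isOpen_compl_iff, isOpen_iff_mem_nhds]
    intro z hz
    obtain ⟨O, hO, hzO, hs⟩ := h z
    refine mem_of_superset ((hO.sdiff hs.finite.isClosed).mem_nhds ⟨hzO, fun h => hz h.2⟩) ?_
    rintro x ⟨hxO, hx⟩ hxA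
    exact hx ⟨hxO, hxA⟩
  · intro a ha
    obtain ⟨O, hO, haO, hs⟩ := h a
    refine ⟨O, hO, ?_⟩
    ext x
    constructor
    · intro hx
      exact hs hx ⟨haO, ha⟩
    · rintro rfl
      exact ⟨haO, ha⟩

section power

variable {N : Type u}

/-- A rule `(m, F, T, v)` says: take the value `v` at `(m, S)` if `S ∩ F = T`. -/
abbrev Rule (N : Type u) : Type u := ℕ × Finset N × Finset N × N

open Classical in
/-- The value at `(m, S)` given by the first rule of the list that can be applied. -/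
noncomputable def eval (v₀ : N) : List (Rule N) → ℕ × Set N → N
  | [], _ => v₀
  | (m, F, T, v) :: l, i => if m = i.1 ∧ i.2 ∩ F = T then v else eval v₀ l i

lemma eval_eq (v₀ : N) (l : List (Rule N)) (i : ℕ × Set N) (w : N)
    (h1 : ∃ q ∈ l, q.1 = i.1 ∧ i.2 ∩ q.2.1 = q.2.2.1)
    (h2 : ∀ q ∈ l, q.1 = i.1 → i.2 ∩ q.2.1 = q.2.2.1 → q.2.2.2 = w) :
    eval v₀ l i = w := by
  induction l with
  | nil =>
    obtain ⟨q, hq, _⟩ := h1
    simp at hq
  | cons q l ih =>
    obtain ⟨m, F, T, v⟩ := q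
    by_cases hq : m = i.1 ∧ i.2 ∩ F = T
    · have : eval v₀ ((m, F, T, v) :: l) i = v := by
        rw [eval]
        exact if_pos hq
      rw [this]
      exact h2 (m, F, T, v) List.mem_cons_self hq.1 hq.2
    · have : eval v₀ ((m, F, T, v) :: l) i = eval v₀ l i := by
        rw [eval]
        exact if_neg hq
      rw [this]
      apply ih
      · obtain ⟨q, hql, hq'⟩ := h1
        rcases List.mem_cons.1 hql with rfl | h
        · exact absurd hq' hq
        · exact ⟨q, h, hq'⟩
      · intro q hql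
        exact h2 q (List.mem_cons_of_mem _ hql)

/-- Finitely many subsets can be distinguished by a finite set. -/
lemma exists_separating [Nonempty N] (𝒮 : Finset (Set N)) :
    ∃ F : Finset N, ∀ S ∈ 𝒮, ∀ S' ∈ 𝒮, S ∩ F = S' ∩ F → S = S' := by
  classical
  have h1 : ∀ p : Set N × Set N, ∃ w : N, p.1 ≠ p.2 → ¬ (w ∈ p.1 ↔ w ∈ p.2) := by
    intro p
    by_cases hp : p.1 = p.2
    · exact ⟨Classical.arbitrary N, fun h => absurd hp h⟩
    · obtain ⟨w, hw⟩ : ∃ w, ¬ (w ∈ p.1 ↔ w ∈ p.2) := by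
        by_contra hcon
        push Not at hcon
        exact hp (Set.ext hcon)
      exact ⟨w, fun _ => hw⟩
  choose w hw using h1
  refine ⟨(𝒮 ×ˢ 𝒮).image w, fun S hS S' hS' h => ?_⟩
  by_contra hne
  apply hw (S, S') hne
  have h2 : w (S, S') ∈ (𝒮 ×ˢ 𝒮).image w :=
    Finset.mem_image_of_mem w (Finset.mem_product.2 ⟨hS, hS'⟩)
  have h3 := Set.ext_iff.1 h (w (S, S'))
  constructor
  · intro h4
    exact (h3.1 ⟨h4, h2⟩).1
  · intro h4
    exact (h3.2 ⟨h4, h2⟩).1

variable [Infinite N]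

/-- There is an injection of the set of lists of rules into `N`. -/
lemma exists_code : ∃ code : List (Rule N) → N, Function.Injective code := by
  have h1 : #(Rule N) = #N := by
    simp only [Rule, mk_prod, lift_id, mk_nat, lift_aleph0, mk_finset_of_infinite, lift_uzero]
    have h2 : #N * #N = #N := mul_eq_self (aleph0_le_mk N)
    rw [h2, h2]
    exact aleph0_mul_eq (aleph0_le_mk N)
  have h3 : #(List (Rule N)) ≤ #N := by
    rw [mk_list_eq_mk, h1]
  obtain ⟨e⟩ := h3
  exact ⟨e, e.injective⟩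

variable [TopologicalSpace N] [DiscreteTopology N]

lemma small (N : Type u) [Infinite N] [TopologicalSpace N] [DiscreteTopology N] :
    SmallESeparable (ℕ × Set N → N) := by
  classical
  obtain ⟨code, hcode⟩ := exists_code (N := N)
  obtain ⟨v₀⟩ : Nonempty N := inferInstance
  let x : ℕ → List (Rule N) → ℕ × Set N → N := fun n l i =>
    if i.1 < n then eval v₀ l i else code l
  refine ⟨fun n => range (x n), ?_, ?_⟩
  · intro n
    apply closedDiscrete_of
    intro z
    refine ⟨{y | y (n, ∅) = z (n, ∅)}, ?_, rfl, ?_⟩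
    · have hc : Continuous fun y : ℕ × Set N → N => y (n, ∅) := continuous_apply _
      exact (isOpen_discrete ({z (n, ∅)} : Set N)).preimage hc
    · rintro _ ⟨h1, l, rfl⟩ _ ⟨h2, l', rfl⟩
      have h3 : x n l (n, ∅) = x n l' (n, ∅) := h1.trans h2.symm
      have h4 : ∀ l, x n l (n, ∅) = code l := fun l => if_neg (lt_irrefl n)
      rw [h4, h4] at h3
      rw [hcode h3]
  · rw [dense_iff_inter_open]
    rintro U hU ⟨z, hz⟩
    obtain ⟨I, u, hu, huU⟩ := isOpen_pi_iff.1 hU z hz
    obtain ⟨n, hn⟩ : ∃ n, ∀ i ∈ I, i.1 < n := by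
      obtain ⟨n, hn⟩ := (I.image Prod.fst).bddAbove
      exact ⟨n + 1, fun i hi => Nat.lt_succ_of_le (hn (Finset.mem_coe.2
        (Finset.mem_image_of_mem _ hi)))⟩
    obtain ⟨F, hF⟩ := exists_separating (I.image Prod.snd)
    let l : List (Rule N) := I.toList.map fun i => (i.1, F, F.filter (· ∈ i.2), z i)
    refine ⟨x n l, huU ?_, mem_iUnion.2 ⟨n, l, rfl⟩⟩
    have htrace : ∀ S : Set N, S ∩ (F : Set N) = ((F.filter (· ∈ S) : Finset N) : Set N) := by
      intro S
      ext a
      simp [and_comm]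
    intro i hi
    have h1 : x n l i = eval v₀ l i := if_pos (hn i hi)
    have h2 : eval v₀ l i = z i := by
      apply eval_eq
      · refine ⟨(i.1, F, F.filter (· ∈ i.2), z i), ?_, rfl, htrace i.2⟩
        exact List.mem_map.2 ⟨i, Finset.mem_toList.2 hi, rfl⟩
      · intro q hq h3 h4
        obtain ⟨j, hj, rfl⟩ := List.mem_map.1 hq
        have hj' : j ∈ I := Finset.mem_toList.1 hj
        have h5 : i.2 = j.2 := by
          apply hF i.2 (Finset.mem_image_of_mem _ hi) j.2 (Finset.mem_image_of_mem _ hj')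
          rw [htrace j.2]
          exact h4
        have h6 : i = j := Prod.ext h3.symm h5
        rw [h6]
    rw [h1, h2]
    exact (hu i hi).2

/-- The functions with values in the finite set `F` that are equal to `n₀` at all but countably
many indices. -/
def Sg (n₀ : N) (F : Finset N) : Set (ℕ × Set N → N) :=
  {x | (∀ i, x i ∈ F) ∧ {i | x i ≠ n₀}.Countable}

omit [Infinite N] in
lemma finite_inter {n₀ : N} {F : Finset N} {E : Set (ℕ × Set N → N)}
    (hE : ClosedDiscrete E) : (E ∩ Sg n₀ F).Finite := by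
  classical
  by_contra hinf
  have hinf' : (E ∩ Sg n₀ F).Infinite := hinf
  let e := Set.Infinite.natEmbedding _ hinf'
  set J : Set (ℕ × Set N) := ⋃ k, {i | (e k).1 i ≠ n₀} with hJ
  have hJc : J.Countable := countable_iUnion fun k => (e k).2.2.2
  have : Countable J := hJc.to_subtype
  obtain ⟨y, φ, hφ, hy⟩ := CompactSpace.tendsto_subseq
    (fun k => fun j : J => (⟨(e k).1 j, (e k).2.2.1 j⟩ : F))
  let z : ℕ × Set N → N := fun i => if h : i ∈ J then (y ⟨i, h⟩ : N) else n₀
  have hz : Tendsto (fun k => (e (φ k)).1) atTop (𝓝 z) := by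
    rw [tendsto_pi_nhds]
    intro i
    by_cases hi : i ∈ J
    · have h1 : Tendsto (fun k => (⟨(e (φ k)).1 i, (e (φ k)).2.2.1 i⟩ : F)) atTop
          (𝓝 (y ⟨i, hi⟩)) := (tendsto_pi_nhds.1 hy) ⟨i, hi⟩
      have h2 := (continuous_subtype_val.tendsto (y ⟨i, hi⟩)).comp h1
      have h3 : z i = (y ⟨i, hi⟩ : N) := dif_pos hi
      rw [h3]
      exact h2
    · have h3 : z i = n₀ := dif_neg hi
      rw [h3]
      refine tendsto_const_nhds.congr fun k => ?_
      by_contra h4
      exact hi (mem_iUnion.2 ⟨φ k, fun h5 => h4 h5.symm⟩)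
  have hzE : z ∈ E := hE.1.mem_of_tendsto hz (Eventually.of_forall fun k => (e (φ k)).2.1)
  obtain ⟨O, hO, hOE⟩ := hE.2 z hzE
  have hzO : z ∈ O := by
    have : z ∈ O ∩ E := by rw [hOE]; rfl
    exact this.1
  obtain ⟨K, hK⟩ := eventually_atTop.1 (hz.eventually (hO.mem_nhds hzO))
  have h5 : ∀ k ≥ K, (e (φ k)).1 = z := by
    intro k hk
    have : (e (φ k)).1 ∈ O ∩ E := ⟨hK k hk, (e (φ k)).2.1⟩
    rw [hOE] at this
    exact this
  have h6 : φ K = φ (K + 1) := by
    apply e.injective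
    apply Subtype.ext
    rw [h5 K le_rfl, h5 (K + 1) (by omega)]
  exact absurd h6 (hφ (Nat.lt_succ_self K)).ne

lemma not_big (N : Type u) [Infinite N] [TopologicalSpace N] [DiscreteTopology N] :
    ¬ BigESeparable (ℕ × Set N → N) := by
  classical
  intro h
  obtain ⟨n₀, n₁, hn⟩ := exists_pair_ne N
  have hdense : Dense (⋃ F : {F : Finset N // n₀ ∈ F}, Sg n₀ F.1) := by
    rw [dense_iff_inter_open]
    rintro U hU ⟨z, hz⟩
    obtain ⟨I, u, hu, huU⟩ := isOpen_pi_iff.1 hU z hz
    refine ⟨fun i => if i ∈ I then z i else n₀, huU ?_, mem_iUnion.2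
      ⟨⟨insert n₀ (I.image z), Finset.mem_insert_self _ _⟩, ?_, ?_⟩⟩
    · intro i hi
      have h1 : (if i ∈ I then z i else n₀) = z i := if_pos hi
      show (if i ∈ I then z i else n₀) ∈ u i
      rw [h1]
      exact (hu i hi).2
    · intro i
      show (if i ∈ I then z i else n₀) ∈ insert n₀ (I.image z)
      by_cases hi : i ∈ I
      · rw [if_pos hi]
        exact Finset.mem_insert_of_mem (Finset.mem_image_of_mem _ hi)
      · rw [if_neg hi]
        exact Finset.mem_insert_self _ _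
    · refine I.countable_toSet.mono ?_
      intro i hi
      by_contra h1
      exact hi (if_neg h1)
  obtain ⟨E, hE, hEd⟩ := h (fun _ => ⋃ F : {F : Finset N // n₀ ∈ F}, Sg n₀ F.1) fun _ => hdense
  -- the supports of all points of the sets `E n`
  have hcount : ∀ p : ℕ × Finset N, ∃ e : ℕ → ℕ × Set N,
      ∀ x ∈ E p.1 ∩ Sg n₀ p.2, n₀ ∈ p.2 → ∀ i, x i ≠ n₀ → ∃ k, e k = i := by
    intro p
    by_cases hp : n₀ ∈ p.2
    · have h1 : (⋃ x ∈ E p.1 ∩ Sg n₀ p.2, {i | x i ≠ n₀}).Countable :=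
        (finite_inter (hE p.1).2).countable.biUnion fun x hx => hx.2.2
      rcases (⋃ x ∈ E p.1 ∩ Sg n₀ p.2, {i | x i ≠ n₀}).eq_empty_or_nonempty with h2 | h2
      · refine ⟨fun _ => (0, ∅), fun x hx _ i hi => ?_⟩
        have h3 : i ∈ ⋃ x ∈ E p.1 ∩ Sg n₀ p.2, {i | x i ≠ n₀} := mem_iUnion₂.2 ⟨x, hx, hi⟩
        rw [h2] at h3
        exact absurd h3 (notMem_empty i)
      · obtain ⟨e, he⟩ := h1.exists_eq_range h2
        refine ⟨e, fun x hx _ i hi => ?_⟩
        have h3 : i ∈ ⋃ x ∈ E p.1 ∩ Sg n₀ p.2, {i | x i ≠ n₀} := mem_iUnion₂.2 ⟨x, hx, hi⟩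
        rw [he] at h3
        exact h3
    · exact ⟨fun _ => (0, ∅), fun x _ h4 => absurd h4 hp⟩
  choose e he using hcount
  obtain ⟨i₀, hi₀⟩ : ∃ i₀ : ℕ × Set N, ∀ (p : ℕ × Finset N) (k : ℕ), e p k ≠ i₀ := by
    by_contra hcon
    push Not at hcon
    have hsurj : Function.Surjective fun q : (ℕ × Finset N) × ℕ => (e q.1 q.2).2 := by
      intro S
      obtain ⟨p, k, hk⟩ := hcon (0, S)
      exact ⟨(p, k), congrArg Prod.snd hk⟩
    have h1 := mk_le_of_surjective hsurj
    have h2 : #((ℕ × Finset N) × ℕ) = #N := by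
      simp only [mk_prod, mk_nat, lift_aleph0, mk_finset_of_infinite, lift_uzero]
      rw [aleph0_mul_eq (aleph0_le_mk N)]
      exact mul_aleph0_eq (aleph0_le_mk N)
    rw [h2, mk_set] at h1
    exact absurd h1 (not_le.2 (cantor _))
  have hzero : ∀ x ∈ ⋃ n, E n, x i₀ = n₀ := by
    intro x hx
    obtain ⟨n, hxn⟩ := mem_iUnion.1 hx
    obtain ⟨⟨F, hF⟩, hxF⟩ := mem_iUnion.1 ((hE n).1 hxn)
    by_contra h1
    obtain ⟨k, hk⟩ := he (n, F) x ⟨hxn, hxF⟩ hF i₀ h1
    exact hi₀ (n, F) k hk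
  have hopen : IsOpen {x : ℕ × Set N → N | x i₀ = n₁} := by
    have hc : Continuous fun y : ℕ × Set N → N => y i₀ := continuous_apply _
    exact (isOpen_discrete ({n₁} : Set N)).preimage hc
  obtain ⟨x, hx1, hx2⟩ := dense_iff_inter_open.1 hEd _ hopen ⟨fun _ => n₁, rfl⟩
  exact hn ((hzero x hx2).symm.trans hx1)

end power

/-- **`e`-separable products of discrete spaces need not be `E`-separable**: for every infinite
discrete space `N`, the product of `2 ^ |N|` copies of `N` (indexed by `ℕ × 𝒫(N)`) is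
`e`-separable, but it is not `E`-separable. -/
theorem result (N : Type u) [Infinite N] [TopologicalSpace N] [DiscreteTopology N] :
    SmallESeparable (ℕ × Set N → N) ∧ ¬ BigESeparable (ℕ × Set N → N) :=
  ⟨small N, not_big N⟩

end Pool.Agent.Results.MP_a67be6_gt.NotESeparable
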